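import Pool.Agent.N848.AW.Stm
import Pool.Agent.R426.QK.Hal2

/-!
# Project AW: mean values twisted by the real characters modulo `8 n`

Part AW-HALL of project AW (helper848), written by helper169, after `Pool/Agent/R426/QK/Sym.lean`,
`Jsum.lean` and `Hal2.lean` (helper426).
-/

set_option autoImplicit false
set_option linter.unusedSectionVars false

open scoped Classical
open Finset

namespace Pool.Agent.N169.AW

open Pool.Agent.N848.AW
open Pool.Agent.R426.QK
open Pool.Agent.R426.QD (r4 r4_eq r4_a Pn nonsq)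
open Pool.Agent.Y279.SG (cXY_cj)
open Pool.Agent.Y698
open Pool.Agent.Y698.SG hiding PD
open H667R3 Pool.Agent.W192.HK Pool.Agent.TH936.CM Pool.Agent.TH936.PU
open scoped ComplexConjugate

/-! ### The characters modulo `8` -/

lemma r8_eq (x : RR) : r8 x = ((cX x + 6 * cY x : ℤ) : ZMod 8) := by
  have h : r8 x = (cX x : ZMod 8) + (cY x : ZMod 8) * 6 := rfl
  rw [h]
  push_cast
  ring

lemma r8_cj (x : RR) : r8 (cj x) = ((cX x + 3 * cY x : ℤ) : ZMod 8) := by
  rw [r8_eq, (cXY_cj x).1, (cXY_cj x).2]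
  have h : (8 : ZMod 8) = 0 := by decide
  push_cast
  linear_combination (-(cY x : ZMod 8)) * h

lemma c8_V3 (a : ZMod 8) : V3 (c8 a) := by
  unfold c8 V3
  split_ifs <;> simp

lemma c8_one : c8 1 = 1 := by
  unfold c8
  rw [if_pos (Or.inl rfl)]

lemma c8_mul : ∀ a b : ZMod 8, c8 (a * b) = c8 a * c8 b := by
  have v0 : c8 0 = 0 := by unfold c8; rw [if_neg (by decide), if_neg (by decide)]
  have v1 : c8 1 = 1 := c8_one
  have v2 : c8 2 = 0 := by unfold c8; rw [if_neg (by decide), if_neg (by decide)]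
  have v3 : c8 3 = -1 := by unfold c8; rw [if_neg (by decide), if_pos (by decide)]
  have v4 : c8 4 = 0 := by unfold c8; rw [if_neg (by decide), if_neg (by decide)]
  have v5 : c8 5 = -1 := by unfold c8; rw [if_neg (by decide), if_pos (by decide)]
  have v6 : c8 6 = 0 := by unfold c8; rw [if_neg (by decide), if_neg (by decide)]
  have v7 : c8 7 = 1 := by unfold c8; rw [if_pos (by decide)]
  have ha : ∀ a : ZMod 8, a = 0 ∨ a = 1 ∨ a = 2 ∨ a = 3 ∨ a = 4 ∨ a = 5 ∨ a = 6 ∨ a = 7 := by decide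
  have m : ∀ a b c : ZMod 8, a * b = c → c8 c = c8 a * c8 b → c8 (a * b) = c8 a * c8 b := by
    intro a b c h1 h2
    rw [h1, h2]
  intro a b
  rcases ha a with rfl | rfl | rfl | rfl | rfl | rfl | rfl | rfl <;>
  rcases ha b with rfl | rfl | rfl | rfl | rfl | rfl | rfl | rfl <;>
  first
    | exact m _ _ 0 (by decide) (by simp [v0, v1, v2, v3, v4, v5, v6, v7])
    | exact m _ _ 1 (by decide) (by simp [v0, v1, v2, v3, v4, v5, v6, v7])
    | exact m _ _ 2 (by decide) (by simp [v0, v1, v2, v3, v4, v5, v6, v7])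
    | exact m _ _ 3 (by decide) (by simp [v0, v1, v2, v3, v4, v5, v6, v7])
    | exact m _ _ 4 (by decide) (by simp [v0, v1, v2, v3, v4, v5, v6, v7])
    | exact m _ _ 5 (by decide) (by simp [v0, v1, v2, v3, v4, v5, v6, v7])
    | exact m _ _ 6 (by decide) (by simp [v0, v1, v2, v3, v4, v5, v6, v7])
    | exact m _ _ 7 (by decide) (by simp [v0, v1, v2, v3, v4, v5, v6, v7])

/-- the modulus `8 √-7` -/
noncomputable def q1 : RR := 2 * q0

lemma q0_dvd_q1 : q0 ∣ q1 := dvd_mul_left _ _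

lemma eight_dvd_q1 : (8 : RR) ∣ q1 := by
  unfold q1 q0
  exact ⟨fR, by ring⟩

lemma nrm_two : nrm (2 : RR) = 4 := by
  unfold nrm nR
  have e : (2 : RR) = ((2 : ℤ) : RR) := by push_cast; rfl
  rw [e, (cXY_int _).1, (cXY_int _).2]
  norm_num

lemma nrm_q1 : nrm q1 = 448 := by
  unfold q1
  rw [nrm_mul, nrm_q0, nrm_two]

lemma q1_ne : q1 ≠ 0 := by
  intro h
  have h1 := nrm_q1
  rw [h, nrm_zero_iff.2 rfl] at h1
  norm_num at h1

lemma prm_cop1 {a : RR} (h : prm a) : IsCoprime a q1 := by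
  unfold q1
  refine IsCoprime.mul_right ?_ (prm_cop h)
  have h1 : (2 : RR) ∣ q0 := by
    unfold q0
    exact ⟨2 * fR, by ring⟩
  exact (prm_cop h).of_isCoprime_of_dvd_right h1

lemma r8_per {a b : RR} (h : (8 : RR) ∣ a - b) : r8 a = r8 b := by
  obtain ⟨c, hc⟩ := h
  have h1 : a = b + 8 * c := by linear_combination hc
  have h8 : (OfNat.ofNat 8 : ZMod 8) = 0 := by decide
  rw [h1, map_add, map_mul, map_ofNat, h8, zero_mul, add_zero]

lemma cj_per {a b : RR} (h : (8 : RR) ∣ a - b) : (8 : RR) ∣ cj a - cj b := by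
  obtain ⟨c, hc⟩ := h
  refine ⟨cj c, ?_⟩
  rw [← map_sub, hc, map_mul, map_ofNat]

lemma xr5_V3 (n : RR) (i j k : ℕ) (a : RR) : V3 (xr5 n i j k a) := by
  unfold xr5
  exact (((jac_V3 _ _).mul ((kp_V3 _).pow _)).mul ((c8_V3 _).pow _)).mul ((c8_V3 _).pow _)

lemma xr5_ch {n : RR} (hn : PS n) (i j k : ℕ) : CH (xr5 n i j k) := by
  refine ⟨?_, ?_, fun a => xr5_V3 n i j k a⟩
  · unfold xr5
    rw [jac_one_right hn.ne, kp_one, map_one, map_one, map_one, c8_one]
    simp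
  · intro a b
    unfold xr5
    rw [jac_mul_right hn.ne, kp_mul, map_mul, map_mul, map_mul, c8_mul, c8_mul, mul_pow, mul_pow, mul_pow]
    ring

/-- the characters on the primary elements -/
noncomputable def F5 (n : RR) (i j k : ℕ) (a : RR) : ℂ := if prm a then xr5 n i j k a else 0

lemma F5_tw {n : RR} (hn : PS n) {i j k : ℕ} {c : RR} (hc1 : prm c) (hc : xr5 n i j k c = -1) (V : ℕ) :
    ‖∑ a ∈ ZB V, F5 n i j k a‖ ≤ 1344 * nrm n * (3 * Real.sqrt V + 1) := by
  classical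
  have hq : q1 * n ≠ 0 := mul_ne_zero q1_ne hn.ne
  have hne : jac n c ≠ 0 := by
    intro h
    unfold xr5 at hc
    rw [h] at hc
    norm_num at hc
  have hcop : IsCoprime c (q1 * n) := IsCoprime.mul_right (prm_cop1 hc1) (jac_cop hn hne).symm
  have h3 := csum hq (f := F5 n i j k) (z := -1) ?_ ?_ hcop (by norm_num) ?_ V
  · refine h3.trans (le_of_eq ?_)
    rw [nrm_mul, nrm_q1]
    push_cast
    ring
  · intro a b hab
    unfold F5
    have e0 : q1 ∣ a - b := (dvd_mul_right _ _).trans hab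
    have e1 : q0 ∣ a - b := q0_dvd_q1.trans e0
    have e1' : q0 ∣ b - a := by
      rw [← neg_sub]
      exact e1.neg_right
    have e8 : (8 : RR) ∣ a - b := eight_dvd_q1.trans e0
    have e2 : n ∣ a - b := (dvd_mul_left _ _).trans hab
    have e4 : prm a ↔ prm b := ⟨prm_per e1, prm_per e1'⟩
    have e5 : xr5 n i j k a = xr5 n i j k b := by
      unfold xr5
      rw [jac_per hn.ne e2, kp_per' e1, r8_per e8, r8_per (cj_per e8)]
    rw [e5]
    by_cases h : prm a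
    · rw [if_pos h, if_pos (e4.1 h)]
    · rw [if_neg h, if_neg (fun hh => h (e4.2 hh))]
  · intro a
    unfold F5
    split_ifs
    · exact (xr5_V3 n i j k a).norm
    · rw [norm_zero]; norm_num
  · intro a
    unfold F5
    have e4 : prm (c * a) ↔ prm a :=
      ⟨fun h => prm_cancel hc1 h, fun h => prm_mul hc1 h⟩
    by_cases h : prm a
    · rw [if_pos h, if_pos (e4.2 h), (xr5_ch hn i j k).mul, hc]
    · rw [if_neg h, if_neg (fun hh => h (e4.1 hh)), mul_zero]

/-- prescribed symbols -/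
lemma exists_twist1 {S : Finset RR} (hS : ∀ ρ ∈ S, Pq ρ) {π : RR} (hπ : Pq π) (hπS : π ∉ S) :
    ∃ c : RR, q1 ∣ c - 1 ∧ sy π c = -1 ∧ (∀ ρ ∈ S, sy ρ c = 1) := by
  set m : RR := q1 * ∏ ρ ∈ S, ρ with hm
  have hcop : IsCoprime π m := by
    refine IsCoprime.mul_right (prm_cop1 hπ.prm) ?_
    rw [IsCoprime.prod_right_iff]
    intro ρ hρ
    exact pq_cop hπ (hS ρ hρ) fun h => hπS (by rw [h]; exact hρ)
  obtain ⟨b, hb⟩ := nonsq hπ.prime hπ.od
  obtain ⟨x, y, hxy⟩ := hcop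
  set a : RR := x * π + b * (y * m) with ha
  have ha1 : m ∣ a - 1 := ⟨b * y - y, by rw [ha]; linear_combination hxy⟩
  have ha2 : π ∣ a - b := ⟨x - b * x, by rw [ha]; linear_combination b * hxy⟩
  refine ⟨a, (dvd_mul_right _ _).trans ha1, ?_, ?_⟩
  · rw [sy_per' ha2, hb]
  · intro ρ hρ
    have h1 : ρ ∣ a - 1 := (Finset.dvd_prod_of_mem _ hρ).trans ((dvd_mul_left _ _).trans ha1)
    rw [sy_per' h1, sy_one' (hS ρ hρ)]

lemma nrm_mk (x y : ℤ) : (nrm (mk (x, y)) : ℤ) = x ^ 2 + x * y + 2 * y ^ 2 := by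
  rw [nrm_eq', (cXY_mk _).1, (cXY_mk _).2]

/-- small elements -/
lemma prm_mk (x y : ℤ) (p : ℕ) (hp : p.Prime) (h2 : p ≠ 2) (h7 : p ≠ 7)
    (hn : x ^ 2 + x * y + 2 * y ^ 2 = p) (h4 : ((x + 2 * y : ℤ) : ZMod 4) = 1) : prm (mk (x, y)) := by
  have hnp : nrm (mk (x, y)) = p := by
    have h := nrm_mk x y
    rw [hn] at h
    exact_mod_cast h
  have hd : ∀ z : RR, z ∣ mk (x, y) → nrm z ∣ p := by
    rintro z ⟨c, hc⟩
    rw [← hnp, hc, nrm_mul]
    exact dvd_mul_right _ _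
  have ha : nrm (cj aR) = 2 := by
    have h3 := congrArg nrm two_eq
    rw [nrm_mul, nrm_two] at h3
    have h5 : nrm aR = 2 := by
      unfold nrm nR
      rw [cXY_aR.1, cXY_aR.2]
      norm_num
    rw [h5] at h3
    omega
  have hf : nrm fR = 7 := by
    unfold nrm
    rw [nR_fR]
    rfl
  refine ⟨?_, ?_, ?_⟩
  · rw [r4_eq, (cXY_mk _).1, (cXY_mk _).2]
    exact h4
  · intro h
    have h1 := hd _ h
    rw [ha] at h1
    exact h2 ((Nat.prime_dvd_prime_iff_eq Nat.prime_two hp).1 h1).symm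
  · intro h
    have h1 := hd _ h
    rw [hf] at h1
    exact h7 ((Nat.prime_dvd_prime_iff_eq (by norm_num) hp).1 h1).symm

lemma kp_mk (x y : ℤ) (p : ℕ) (hn : x ^ 2 + x * y + 2 * y ^ 2 = p) :
    kp (mk (x, y)) = if p % 4 = 1 then 1 else if p % 4 = 3 then -1 else 0 := by
  have hnp : nrm (mk (x, y)) = p := by
    have h := nrm_mk x y
    rw [hn] at h
    exact_mod_cast h
  unfold kp
  rw [hnp]

lemma r8_mk (x y : ℤ) : r8 (mk (x, y)) = ((x + 6 * y : ℤ) : ZMod 8) ∧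
    r8 (cj (mk (x, y))) = ((x + 3 * y : ℤ) : ZMod 8) := by
  rw [r8_eq, r8_cj, (cXY_mk _).1, (cXY_mk _).2]
  exact ⟨rfl, rfl⟩

lemma c8_five : c8 5 = -1 := by unfold c8; rw [if_neg (by decide), if_pos (by decide)]

lemma c8_seven : c8 7 = 1 := by unfold c8; rw [if_pos (by decide)]

/-- sums of nonprincipal characters -/
theorem F5_sum {n : RR} (hn : PS n) {i j k : ℕ} (hi : i < 2) (hj : j < 2) (hk : k < 2)
    (hne : n ≠ 1 ∨ i ≠ 0 ∨ j ≠ 0 ∨ k ≠ 0) (V : ℕ) :
    ‖∑ a ∈ ZB V, F5 n i j k a‖ ≤ 1344 * nrm n * (3 * Real.sqrt V + 1) := by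
  classical
  by_cases hn1 : n = 1
  · subst hn1
    by_cases hj0 : j = 0
    · by_cases hk0 : k = 0
      · have hi1 : i = 1 := by
          rcases hne with h | h | h | h
          · exact absurd rfl h
          · omega
          · exact absurd hj0 h
          · exact absurd hk0 h
        refine F5_tw hn (c := mk (5, -2)) (prm_mk 5 (-2) 23 (by norm_num) (by norm_num) (by norm_num)
          (by norm_num) (by decide)) ?_ V
        unfold xr5
        rw [jac_one_left, kp_mk 5 (-2) 23 (by norm_num), hj0, hk0, hi1]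
        norm_num
      · have hk1 : k = 1 := by omega
        refine F5_tw hn (c := mk (1, 4)) (prm_mk 1 4 37 (by norm_num) (by norm_num) (by norm_num)
          (by norm_num) (by decide)) ?_ V
        have e2 : (((1 : ℤ) + 3 * 4 : ℤ) : ZMod 8) = 5 := by decide
        unfold xr5
        rw [jac_one_left, kp_mk 1 4 37 (by norm_num), (r8_mk 1 4).2, e2, c8_five, hj0, hk1]
        norm_num
    · have hj1 : j = 1 := by omega
      refine F5_tw hn (c := mk (-3, 4)) (prm_mk (-3) 4 29 (by norm_num) (by norm_num) (by norm_num)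
        (by norm_num) (by decide)) ?_ V
      have e1 : (((-3 : ℤ) + 6 * 4 : ℤ) : ZMod 8) = 5 := by decide
      have e2 : (((-3 : ℤ) + 3 * 4 : ℤ) : ZMod 8) = 1 := by decide
      unfold xr5
      rw [jac_one_left, kp_mk (-3) 4 29 (by norm_num), (r8_mk (-3) 4).1, (r8_mk (-3) 4).2, e1, e2,
        c8_five, c8_one, hj1]
      norm_num
  · have h1 : (PD n).Nonempty := by
      rw [nonempty_iff_ne_empty]
      intro h
      apply hn1
      rw [← hn.prod, h, prod_empty]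
    obtain ⟨π, hπ⟩ := h1
    have hπ' := ((mem_PD hn.ne).1 hπ).1
    have hS : ∀ ρ ∈ (PD n).erase π, Pq ρ := fun ρ hρ => ((mem_PD hn.ne).1 (mem_of_mem_erase hρ)).1
    obtain ⟨c, hc1, hc2, hc3⟩ := exists_twist1 hS hπ' (notMem_erase _ _)
    have hjx : jac n c = -1 := by
      unfold jac
      rw [← mul_prod_erase (PD n) _ hπ, prod_eq_one, mul_one, hc2]
      intro ρ hρ
      exact hc3 ρ hρ
    have hc0 : q0 ∣ c - 1 := q0_dvd_q1.trans hc1
    have hc8 : (8 : RR) ∣ c - 1 := eight_dvd_q1.trans hc1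
    have hc1' : q0 ∣ 1 - c := by
      rw [← neg_sub]
      exact hc0.neg_right
    have hc8' := cj_per hc8
    refine F5_tw hn (prm_per hc1' prm_one) ?_ V
    unfold xr5
    rw [hjx, kp_per' hc0, r8_per hc8, r8_per hc8', kp_one, map_one, map_one, map_one, c8_one]
    simp

/-- character sums -/
lemma chs_le5 {n : RR} (hn : PS n) {i j k : ℕ} (hi : i < 2) (hj : j < 2) (hk : k < 2)
    (h1 : n ≠ 1 ∨ i ≠ 0 ∨ j ≠ 0 ∨ k ≠ 0) {v : ℕ} (hv : 1 ≤ v) :
    ‖∑ d ∈ PB v, xr5 n i j k d‖ ≤ 5376 * (nrm n : ℕ) * Real.sqrt v := by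
  classical
  have h := F5_sum hn hi hj hk h1 v
  have e : ∑ a ∈ ZB v, F5 n i j k a = ∑ d ∈ PB v, xr5 n i j k d := by
    unfold PB
    rw [sum_filter]
    rfl
  rw [e] at h
  have h2 : (1 : ℝ) ≤ Real.sqrt v := Real.one_le_sqrt.2 (by exact_mod_cast hv)
  have h3 : (0 : ℝ) ≤ (nrm n : ℝ) := by positivity
  refine h.trans ?_
  push_cast
  nlinarith

/-- partial sums of the L-series at 1 -/
theorem chs_logG {χ : RR → ℂ} (hch : CH χ) {N : ℕ} (hN1 : 1 ≤ N)
    (hcl : ∀ v : ℕ, 1 ≤ v → ‖∑ d ∈ PB v, χ d‖ ≤ 5376 * (N : ℕ) * Real.sqrt v) (Y : ℕ) :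
    ‖∑ d ∈ PB Y, χ d / nrm d‖ ≤ 10800 * lgn N := by
  classical
  have hlg := one_le_lgn N
  rcases Nat.eq_zero_or_pos Y with h0 | hY
  · have : PB Y = ∅ := by
      rw [eq_empty_iff_forall_notMem]
      intro x hx
      rw [mem_PB] at hx
      have := nrm_pos' (prm_ne_zero hx.2)
      omega
    rw [this, sum_empty, norm_zero]
    linarith
  have hYr : (0 : ℝ) < Y := by exact_mod_cast hY
  -- summation by parts
  have e1 : ∑ d ∈ PB Y, χ d / nrm d = (∑ d ∈ PB Y, χ d) * ((1 / Y : ℝ) : ℂ) +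
      ∑ v ∈ Ico 1 Y, (∑ d ∈ PB v, χ d) * ((1 / ((v : ℝ) * (v + 1)) : ℝ) : ℂ) := by
    have e2 : ∀ d ∈ PB Y, χ d / nrm d = χ d * ((1 / Y : ℝ) : ℂ) +
        ∑ v ∈ Ico 1 Y, if nrm d ≤ v then χ d * ((1 / ((v : ℝ) * (v + 1)) : ℝ) : ℂ) else 0 := by
      intro d hd
      rw [mem_PB] at hd
      have hd1 := nrm_pos' (prm_ne_zero hd.2)
      have h2 := inv_tel (nrm d) hd1 Y hd.1
      have h3 : χ d / (nrm d : ℂ) = χ d * ((1 / (nrm d : ℝ) : ℝ) : ℂ) := by
        push_cast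
        rw [mul_one_div]
      rw [h3, h2, Complex.ofReal_add, mul_add]
      congr 1
      rw [Complex.ofReal_sum, mul_sum, ← sum_filter]
      refine sum_congr ?_ fun _ _ => rfl
      ext v
      rw [mem_filter, mem_Ico, mem_Ico]
      constructor
      · rintro ⟨a1, a2⟩; exact ⟨⟨by omega, a2⟩, a1⟩
      · rintro ⟨⟨-, a2⟩, a1⟩; exact ⟨a1, a2⟩
    rw [sum_congr rfl e2, sum_add_distrib, ← sum_mul, sum_comm]
    congr 1
    refine sum_congr rfl fun v hv => ?_
    rw [mem_Ico] at hv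
    rw [← sum_filter, ← sum_mul]
    congr 1
    refine sum_congr ?_ fun _ _ => rfl
    ext d
    rw [mem_filter, mem_PB, mem_PB]
    constructor
    · rintro ⟨⟨-, a2⟩, a1⟩; exact ⟨a1, a2⟩
    · rintro ⟨a1, a2⟩; exact ⟨⟨by omega, a2⟩, a1⟩
  rw [e1]
  refine (norm_add_le _ _).trans ?_
  have nr : ∀ {r : ℝ}, 0 ≤ r → ‖(r : ℂ)‖ = r := fun {r} h => by
    rw [Complex.norm_real, Real.norm_of_nonneg h]
  have e3 : ‖(∑ d ∈ PB Y, χ d) * ((1 / Y : ℝ) : ℂ)‖ ≤ 16 := by
    rw [norm_mul, nr (by positivity), mul_one_div, div_le_iff₀ hYr]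
    exact chs_le' hch hY
  have e4 : ∀ v ∈ Ico 1 Y, ‖(∑ d ∈ PB v, χ d) * ((1 / ((v : ℝ) * (v + 1)) : ℝ) : ℂ)‖ ≤
      (if v < N ^ 2 then 16 * (1 / ((v : ℝ) + 1)) else 0) +
      (if N ^ 2 ≤ v then 5376 * N * (Real.sqrt v / (v * (v + 1))) else 0) := by
    intro v hv
    rw [mem_Ico] at hv
    have v0 : (0 : ℝ) < v := by exact_mod_cast hv.1
    have hp : (0 : ℝ) < 1 / ((v : ℝ) * (v + 1)) := by positivity
    rw [norm_mul, nr hp.le]
    by_cases h : v < N ^ 2
    · rw [if_pos h, if_neg (by omega), add_zero]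
      calc ‖∑ d ∈ PB v, χ d‖ * (1 / ((v : ℝ) * (v + 1))) ≤ (16 * v) * (1 / ((v : ℝ) * (v + 1))) :=
            mul_le_mul_of_nonneg_right (chs_le' hch hv.1) hp.le
        _ = 16 * (1 / ((v : ℝ) + 1)) := by field_simp
    · rw [if_neg h, if_pos (by omega), zero_add]
      calc ‖∑ d ∈ PB v, χ d‖ * (1 / ((v : ℝ) * (v + 1))) ≤
            (5376 * N * Real.sqrt v) * (1 / ((v : ℝ) * (v + 1))) :=
            mul_le_mul_of_nonneg_right (hcl v hv.1) hp.le
        _ = 5376 * N * (Real.sqrt v / (v * (v + 1))) := by ring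
  have e5 : ‖∑ v ∈ Ico 1 Y, (∑ d ∈ PB v, χ d) * ((1 / ((v : ℝ) * (v + 1)) : ℝ) : ℂ)‖ ≤
      16 * (2 * lgn N) + 10752 := by
    refine (norm_sum_le _ _).trans ((sum_le_sum e4).trans ?_)
    rw [sum_add_distrib]
    have hN2 : 1 ≤ N ^ 2 := Nat.one_le_pow _ _ hN1
    have a1 : ∑ v ∈ Ico 1 Y, (if v < N ^ 2 then 16 * (1 / ((v : ℝ) + 1)) else 0) ≤ 16 * (2 * lgn N) := by
      rw [← sum_filter, ← mul_sum]
      have h2 : ∑ v ∈ (Ico 1 Y).filter (fun v => v < N ^ 2), (1 : ℝ) / ((v : ℝ) + 1) ≤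
          ∑ v ∈ Ico 1 (N ^ 2), (1 : ℝ) / ((v : ℝ) + 1) := by
        refine sum_le_sum_of_subset_of_nonneg ?_ (fun _ _ _ => by positivity)
        intro v hv
        rw [mem_filter, mem_Ico] at hv
        rw [mem_Ico]
        exact ⟨hv.1.1, hv.2⟩
      have h3 := harm_le (N ^ 2) hN2
      have h4 : Real.log ((N ^ 2 : ℕ) : ℝ) = 2 * Real.log N := by
        push_cast
        rw [Real.log_pow]
        push_cast
        ring
      rw [h4] at h3
      have h5 := log_le_lgn hN1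
      linarith
    have a2 : ∑ v ∈ Ico 1 Y, (if N ^ 2 ≤ v then 5376 * (N : ℝ) * (Real.sqrt v / (v * (v + 1))) else 0) ≤ 10752 := by
      rw [← sum_filter, ← mul_sum]
      have h2 : ∑ v ∈ (Ico 1 Y).filter (fun v => N ^ 2 ≤ v), Real.sqrt v / ((v : ℝ) * (v + 1)) ≤
          ∑ v ∈ Ico (N ^ 2) (max Y (N ^ 2)), Real.sqrt v / ((v : ℝ) * (v + 1)) := by
        refine sum_le_sum_of_subset_of_nonneg ?_ (fun _ _ _ => by positivity)
        intro v hv
        rw [mem_filter, mem_Ico] at hv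
        rw [mem_Ico]
        exact ⟨hv.2, lt_of_lt_of_le hv.1.2 (le_max_left _ _)⟩
      have h3 := sqrt_tel (N ^ 2) hN2 (max Y (N ^ 2)) (le_max_right _ _)
      have h4 : Real.sqrt ((N ^ 2 : ℕ) : ℝ) = N := by
        push_cast
        exact Real.sqrt_sq (Nat.cast_nonneg _)
      rw [h4] at h3
      have h5 : (0 : ℝ) ≤ 1 / Real.sqrt ((max Y (N ^ 2) : ℕ) : ℝ) := by positivity
      have Nr : (0 : ℝ) < N := by exact_mod_cast hN1
      calc 5376 * (N : ℝ) * ∑ v ∈ (Ico 1 Y).filter (fun v => N ^ 2 ≤ v), Real.sqrt v / ((v : ℝ) * (v + 1))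
          ≤ 5376 * N * (2 * (1 / N)) := by
            apply mul_le_mul_of_nonneg_left _ (by positivity)
            linarith
        _ = 10752 := by field_simp; norm_num
    linarith
  linarith

/-- **the mean value for a character** -/
theorem t_HALL5 : S_HALL5 := by
  refine ⟨10500, by norm_num, ?_⟩
  intro n i j k hn hi hj hk h1 T
  rcases Nat.eq_zero_or_pos T with h0 | hT
  · rw [SB_empty h0, sum_empty]
    have h2 := lgn_pos T
    have h3 := lgn_pos (nrm n)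
    positivity
  have hch := xr5_ch hn i j k
  have hl := one_le_lgn (nrm n)
  have hlT := lgn_pos T
  have hAA : ∑ m ∈ PB (T ^ 3), mf (fun π => 3 * ((2 + (xr5 n i j k π).re) / 3)) m / nrm m ≤
      (125000000 * lgn (nrm n)) * lgn T ^ 2 := by
    have e1 : (fun π : RR => 3 * ((2 + (xr5 n i j k π).re) / 3)) = fun π => 2 + (xr5 n i j k π).re := by
      funext π; ring
    rw [e1]
    refine (conv_bound hch (chs_logG hch (nrm_pos' hn.ne) (fun v hv => chs_le5 hn hi hj hk h1 hv)) (T ^ 3)).trans ?_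
    have e5 := lgn_cube T
    have e6 := lgn_pos (T ^ 3)
    have e7 : (32 * lgn (T ^ 3)) ^ 2 ≤ (96 * lgn T) ^ 2 := by
      apply pow_le_pow_left₀ (by positivity)
      linarith
    calc (32 * lgn (T ^ 3)) ^ 2 * (10800 * lgn (nrm n)) ≤ (96 * lgn T) ^ 2 * (10800 * lgn (nrm n)) := by
          apply mul_le_mul_of_nonneg_right e7 (by positivity)
      _ = 99532800 * (lgn (nrm n) * lgn T ^ 2) := by ring
      _ ≤ 125000000 * (lgn (nrm n) * lgn T ^ 2) := by
          have : 0 ≤ lgn (nrm n) * lgn T ^ 2 := by positivity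
          linarith
      _ = _ := by ring
  have hv := fun π => hch.val π
  have h2 := hall_aux (g := fun π => (2 + (xr5 n i j k π).re) / 3)
    (fun π => by have := re_nonneg (hv π); linarith)
    (fun π => by have := re_le (hv π); linarith) hT (by linarith) hAA
  refine h2.trans (le_of_eq ?_)
  have e : (125000000 * lgn (nrm n)) ^ (1 / 3 : ℝ) = 500 * (lgn (nrm n)) ^ (1 / 3 : ℝ) := by
    rw [Real.mul_rpow (by norm_num) (by linarith)]
    congr 1
    rw [show (125000000 : ℝ) = 500 ^ (3 : ℝ) by norm_num, ← Real.rpow_mul (by norm_num)]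
    norm_num
  rw [e]
  ring

end Pool.Agent.N169.AW
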